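import Mathlib

/-!
# CR42/Defs: the crossing number of a sequence (shared, do not change)

`cr (a_1, …, a_n) = 2 ∑ |a_j| - #{j < n | a_j a_{j+1} > 0}`.
-/

set_option autoImplicit false

namespace Pool.Agent.CR42

/-- `2 |a|`, minus `1` if `p` and `a` are nonzero and have the same sign. -/
def cost (p a : ℤ) : ℕ := 2 * a.natAbs - if 0 < p * a then 1 else 0

/-- The sum of `cost p a_1, cost a_1 a_2, …, cost a_{n-1} a_n`. -/
def rc : ℤ → List ℤ → ℕ
  | _, [] => 0
  | p, a :: l => cost p a + rc a l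

/-- `2 ∑ |a_j| - #{j < n | a_j a_{j+1} > 0}`, the crossing number of the two-bridge knot. -/
def cr (l : List ℤ) : ℕ := rc 0 l

/-- Sequences without zero, of total cost `n` after `p`, with `Q` for all entries. -/
def TT (Q : ℤ → Prop) (p : ℤ) (n : ℕ) : Set (List ℤ) := {l | (∀ x ∈ l, x ≠ 0 ∧ Q x) ∧ rc p l = n}

end Pool.Agent.CR42
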