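import Pool.Agent.CR42.Low
import Pool.Agent.PT51.Final

/-!
# CR42/Fin: almost all two-bridge knots, ordered by crossing number
-/

set_option autoImplicit false

namespace Pool.Agent.CR42

open Pool.Agent.DFJ Pool.Agent.TBK Pool.Agent.PT42

/-- The sequence `a_1, a_2, …` as a function on `ℕ`. -/
def seq (l : List ℤ) (j : ℕ) : ℤ := l.getD (j - 1) 0

theorem bad_sub {c : ℕ} :
    {l : List ℤ | Seq c l ∧ ¬ Conj (l.length / 2) (seq l)} ⊆ TT (fun x => |x| ≠ 2) 0 c := by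
  rintro l ⟨⟨h1, h2, h3, h4⟩, h5⟩
  refine ⟨fun x hx => ⟨h3 x hx, fun h6 => h5 ?_⟩, h4⟩
  have hlen : 2 * (l.length / 2) = l.length := Nat.two_mul_div_two_of_even h2
  have hpos : 0 < l.length := List.length_pos_of_ne_nil h1
  obtain ⟨i, hi, rfl⟩ := List.getElem_of_mem hx
  refine (Pool.Agent.PT51.two_conj (by omega) (fun j hj hj' => ?_) ⟨i + 1, by omega, by omega, ?_⟩).1
  · have h7 : j - 1 < l.length := by omega
    unfold seq
    rw [List.getD_eq_getElem _ _ h7]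
    exact h3 _ (List.getElem_mem h7)
  · unfold seq
    have h7 : i + 1 - 1 < l.length := by omega
    rw [List.getD_eq_getElem _ _ h7]
    simpa using h6

theorem bad_le (c : ℕ) :
    ({l : List ℤ | Seq c l ∧ ¬ Conj (l.length / 2) (seq l)}.ncard : ℝ) ≤
      16 * (9 / 10) ^ c * ({l : List ℤ | Seq c l}.ncard : ℝ) := by
  rcases lt_or_ge c 4 with hc | hc
  · have h1 : {l : List ℤ | Seq c l ∧ ¬ Conj (l.length / 2) (seq l)}.ncard ≤
        {l : List ℤ | Seq c l}.ncard := Set.ncard_le_ncard (fun l hl => hl.1) (Seq_finite c)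
    have h2 : (1 : ℝ) ≤ 16 * (9 / 10) ^ c := by
      have h3 : ((9 : ℝ) / 10) ^ 4 ≤ (9 / 10) ^ c :=
        pow_le_pow_of_le_one (by norm_num) (by norm_num) hc.le
      have h4 : (1 : ℝ) ≤ 16 * (9 / 10) ^ 4 := by norm_num
      linarith
    have h5 : (({l : List ℤ | Seq c l ∧ ¬ Conj (l.length / 2) (seq l)}.ncard : ℕ) : ℝ) ≤
        (({l : List ℤ | Seq c l}.ncard : ℕ) : ℝ) := by exact_mod_cast h1
    have h6 : (0 : ℝ) ≤ (({l : List ℤ | Seq c l}.ncard : ℕ) : ℝ) := Nat.cast_nonneg _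
    nlinarith
  · have h1 : {l : List ℤ | Seq c l ∧ ¬ Conj (l.length / 2) (seq l)}.ncard ≤
        (TT (fun x => |x| ≠ 2) 0 c).ncard := Set.ncard_le_ncard bad_sub (TT_finite _ c 0)
    have h2 : (({l : List ℤ | Seq c l ∧ ¬ Conj (l.length / 2) (seq l)}.ncard : ℕ) : ℝ) ≤
        (9 / 5) ^ c := le_trans (by exact_mod_cast h1) (up c 0)
    have h3 : ((2 : ℝ)) ^ (c - 4) ≤ (({l : List ℤ | Seq c l}.ncard : ℕ) : ℝ) := by
      exact_mod_cast Seq_low hc
    have h4 : ((9 : ℝ) / 5) ^ c = 16 * (9 / 10) ^ c * 2 ^ (c - 4) := by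
      have h5 : ((9 : ℝ) / 5) ^ c = (9 / 10) ^ c * 2 ^ c := by rw [← mul_pow]; norm_num
      have h6 : ((2 : ℝ)) ^ c = 2 ^ (c - 4) * 16 := by
        rw [show (16 : ℝ) = 2 ^ 4 by norm_num, ← pow_add]
        congr 1
        omega
      rw [h5, h6]
      ring
    calc (({l : List ℤ | Seq c l ∧ ¬ Conj (l.length / 2) (seq l)}.ncard : ℕ) : ℝ)
        ≤ (9 / 5) ^ c := h2
      _ = 16 * (9 / 10) ^ c * 2 ^ (c - 4) := h4
      _ ≤ _ := mul_le_mul_of_nonneg_left h3 (by positivity)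

end Pool.Agent.CR42
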