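import Pool.Agent.CR42.Up

/-!
# CR42/Low: many sequences of even length
-/

set_option autoImplicit false

namespace Pool.Agent.CR42

/-- the entry of cost `m` after `p ≠ 0` -/
def nx (p : ℤ) (m : ℕ) : ℤ :=
  p.sign * (if m % 2 = 1 then (((m + 1) / 2 : ℕ) : ℤ) else -((m / 2 : ℕ) : ℤ))

theorem nx_ne {p : ℤ} (hp : p ≠ 0) {m : ℕ} (hm : 1 ≤ m) : nx p m ≠ 0 := by
  unfold nx
  apply mul_ne_zero
  · rwa [Ne, Int.sign_eq_zero_iff_zero]
  · split_ifs <;> omega

theorem cost_nx {p : ℤ} (hp : p ≠ 0) {m : ℕ} (hm : 1 ≤ m) : cost p (nx p m) = m := by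
  unfold cost nx
  rcases lt_or_gt_of_ne hp with h | h
  · rw [Int.sign_eq_neg_one_of_neg h]
    by_cases h1 : m % 2 = 1
    · rw [if_pos h1, if_pos (by
        have : (0 : ℤ) < (((m + 1) / 2 : ℕ) : ℤ) := by
          have : 0 < (m + 1) / 2 := by omega
          exact_mod_cast this
        nlinarith)]
      omega
    · rw [if_neg h1, if_neg (by
        have : (0 : ℤ) < ((m / 2 : ℕ) : ℤ) := by
          have : 0 < m / 2 := by omega
          exact_mod_cast this
        nlinarith)]
      omega
  · rw [Int.sign_eq_one_of_pos h]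
    by_cases h1 : m % 2 = 1
    · rw [if_pos h1, if_pos (by
        have : (0 : ℤ) < (((m + 1) / 2 : ℕ) : ℤ) := by
          have : 0 < (m + 1) / 2 := by omega
          exact_mod_cast this
        nlinarith)]
      omega
    · rw [if_neg h1, if_neg (by
        have : (0 : ℤ) < ((m / 2 : ℕ) : ℤ) := by
          have : 0 < m / 2 := by omega
          exact_mod_cast this
        nlinarith)]
      omega

/-- Sequences without zero, of total cost `n` after `p`, of length `≡ e` modulo `2`. -/
def TP (p : ℤ) (n e : ℕ) : Set (List ℤ) :=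
  {l | (∀ x ∈ l, x ≠ 0) ∧ rc p l = n ∧ l.length % 2 = e}

theorem TP_finite (p : ℤ) (n e : ℕ) : (TP p n e).Finite := by
  refine (TT_finite (fun _ => True) n p).subset ?_
  rintro l ⟨h1, h2, -⟩
  exact ⟨fun x hx => ⟨h1 x hx, trivial⟩, h2⟩

/-- a lower bound for the number -/
def gl (n e : ℕ) : ℕ := if n = 0 then 1 - e else if n = 1 then e else 2 ^ (n - 2)

theorem gl_sum {n e : ℕ} (hn : 1 ≤ n) (he : e ≤ 1) :
    ∑ j ∈ Finset.range n, gl j e = gl n (1 - e) := by
  induction n, hn using Nat.le_induction with
  | base => simp [gl]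
  | succ n hn ih =>
    rw [Finset.sum_range_succ, ih]
    unfold gl
    rcases hn.eq_or_lt with h | h
    · subst h
      simp
      omega
    · rw [if_neg (by omega), if_neg (by omega), if_neg (by omega), if_neg (by omega),
        if_neg (by omega), if_neg (by omega)]
      rw [show n + 1 - 2 = (n - 2) + 1 by omega, pow_succ]
      ring

theorem low (n : ℕ) : ∀ p : ℤ, p ≠ 0 → ∀ e : ℕ, e ≤ 1 → gl n e ≤ (TP p n e).ncard := by
  classical
  induction n using Nat.strong_induction_on with
  | _ n ih =>
    intro p hp e he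
    rcases Nat.eq_zero_or_pos n with h | h
    · subst h
      unfold gl
      rw [if_pos rfl]
      rcases Nat.eq_zero_or_pos e with h1 | h1
      · subst h1
        have h2 : ({[]} : Set (List ℤ)) ⊆ TP p 0 0 := by
          rintro l rfl
          exact ⟨by simp, rfl, rfl⟩
        have h3 := Set.ncard_le_ncard h2 (TP_finite p 0 0)
        rw [Set.ncard_singleton] at h3
        exact h3
      · omega
    · set G : ℕ → Finset (List ℤ) := fun j =>
        ((TP_finite (nx p (n - j)) j (1 - e)).toFinset).image (List.cons (nx p (n - j))) with hG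
      have hcost : ∀ j ∈ Finset.range n, cost p (nx p (n - j)) = n - j := fun j hj => by
        rw [Finset.mem_range] at hj
        exact cost_nx hp (by omega)
      have hsub : (((Finset.range n).biUnion G : Finset (List ℤ)) : Set (List ℤ)) ⊆ TP p n e := by
        intro l hl
        rw [Finset.mem_coe, Finset.mem_biUnion] at hl
        obtain ⟨j, hj, hl⟩ := hl
        simp only [hG, Finset.mem_image, Set.Finite.mem_toFinset] at hl
        obtain ⟨l', ⟨h1, h2, h3⟩, rfl⟩ := hl
        have hc := hcost j hj
        rw [Finset.mem_range] at hj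
        refine ⟨?_, ?_, ?_⟩
        · intro x hx
          rcases List.mem_cons.1 hx with rfl | hx
          · exact nx_ne hp (by omega)
          · exact h1 x hx
        · simp only [rc]
          rw [hc, h2]
          omega
        · rw [List.length_cons]
          omega
      have hdisj : ((Finset.range n : Finset ℕ) : Set ℕ).PairwiseDisjoint G := by
        intro j hj j' hj' hne
        rw [Function.onFun, Finset.disjoint_left]
        intro l h1 h2
        simp only [hG, Finset.mem_image] at h1 h2
        obtain ⟨l1, -, rfl⟩ := h1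
        obtain ⟨l2, -, h3⟩ := h2
        rw [List.cons.injEq] at h3
        apply hne
        have e1 := hcost j (Finset.mem_coe.1 hj)
        have e2 := hcost j' (Finset.mem_coe.1 hj')
        rw [h3.1, e1] at e2
        have h4 := Finset.mem_range.1 (Finset.mem_coe.1 hj)
        have h5 := Finset.mem_range.1 (Finset.mem_coe.1 hj')
        omega
      calc gl n e = ∑ j ∈ Finset.range n, gl j (1 - e) := by
            rw [gl_sum h (by omega)]
            congr 1
            omega
        _ ≤ ∑ j ∈ Finset.range n, (TP (nx p (n - j)) j (1 - e)).ncard := by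
            refine Finset.sum_le_sum fun j hj => ?_
            rw [Finset.mem_range] at hj
            exact ih j hj _ (nx_ne hp (by omega)) _ (by omega)
        _ = ∑ j ∈ Finset.range n, (G j).card := by
            refine Finset.sum_congr rfl fun j _ => ?_
            rw [hG, Finset.card_image_of_injective _ (List.cons_injective),
              Set.ncard_eq_toFinset_card _ (TP_finite (nx p (n - j)) j (1 - e))]
        _ = ((Finset.range n).biUnion G).card := (Finset.card_biUnion hdisj).symm
        _ = (((Finset.range n).biUnion G : Finset (List ℤ)) : Set (List ℤ)).ncard :=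
            (Set.ncard_coe_finset _).symm
        _ ≤ (TP p n e).ncard := Set.ncard_le_ncard hsub (TP_finite p n e)

/-- the admissible sequences `(a_1, …, a_{2g})`, `g ≥ 1`, of crossing number `c` -/
def Seq (c : ℕ) (l : List ℤ) : Prop := l ≠ [] ∧ Even l.length ∧ (∀ x ∈ l, x ≠ 0) ∧ cr l = c

theorem Seq_finite (c : ℕ) : {l | Seq c l}.Finite := by
  refine (TT_finite (fun _ => True) c 0).subset ?_
  rintro l ⟨-, -, h1, h2⟩
  exact ⟨fun x hx => ⟨h1 x hx, trivial⟩, h2⟩

theorem Seq_low {c : ℕ} (hc : 4 ≤ c) : 2 ^ (c - 4) ≤ {l | Seq c l}.ncard := by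
  have h1 := low (c - 2) 1 one_ne_zero 1 le_rfl
  have h2 : gl (c - 2) 1 = 2 ^ (c - 4) := by
    unfold gl
    rw [if_neg (by omega), if_neg (by omega)]
    congr 1
  rw [h2] at h1
  refine h1.trans ?_
  rw [← Set.ncard_image_of_injective (TP 1 (c - 2) 1) (List.cons_injective (a := (1 : ℤ)))]
  refine Set.ncard_le_ncard ?_ (Seq_finite c)
  rintro l ⟨l', ⟨h3, h4, h5⟩, rfl⟩
  refine ⟨by simp, ?_, ?_, ?_⟩
  · rw [List.length_cons, Nat.even_iff]
    omega
  · intro x hx
    rcases List.mem_cons.1 hx with rfl | hx
    · exact one_ne_zero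
    · exact h3 x hx
  · unfold cr
    simp only [rc]
    rw [h4]
    have : cost 0 1 = 2 := by decide
    rw [this]
    omega

end Pool.Agent.CR42
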