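import Pool.Agent.CR42.Defs

/-!
# CR42/Up: few sequences without an entry 2
-/

set_option autoImplicit false

namespace Pool.Agent.CR42

theorem cost_pos {p a : ℤ} (ha : a ≠ 0) : 1 ≤ cost p a := by
  unfold cost
  split_ifs <;> omega

theorem natAbs_le_cost (p a : ℤ) : a.natAbs ≤ cost p a := by
  unfold cost
  split_ifs with h
  · have : a ≠ 0 := by
      rintro rfl
      simp at h
    omega
  · omega

/-- the entries that can come first -/
noncomputable def AA (Q : ℤ → Prop) [DecidablePred Q] (p : ℤ) (n : ℕ) : Finset ℤ :=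
  (Finset.Icc (-(n : ℤ)) n).filter fun a => (a ≠ 0 ∧ Q a) ∧ cost p a ≤ n

theorem TT_sub (Q : ℤ → Prop) [DecidablePred Q] (p : ℤ) {n : ℕ} (hn : 1 ≤ n) :
    TT Q p n ⊆ ⋃ a ∈ AA Q p n, (List.cons a) '' TT Q a (n - cost p a) := by
  rintro l ⟨h1, h2⟩
  match l with
  | [] =>
    simp only [rc] at h2
    omega
  | a :: l =>
    simp only [rc] at h2
    have ha := h1 a (List.mem_cons_self)
    simp only [Set.mem_iUnion]
    refine ⟨a, ?_, l, ⟨fun x hx => h1 x (List.mem_cons_of_mem _ hx), by omega⟩, rfl⟩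
    unfold AA
    rw [Finset.mem_filter, Finset.mem_Icc]
    have h3 := natAbs_le_cost p a
    refine ⟨by omega, ha, by omega⟩

theorem TT_zero (Q : ℤ → Prop) (p : ℤ) : TT Q p 0 ⊆ {[]} := by
  rintro l ⟨h1, h2⟩
  match l with
  | [] => rfl
  | a :: l =>
    simp only [rc] at h2
    have ha := cost_pos (p := p) (h1 a (List.mem_cons_self)).1
    omega

theorem TT_finite (Q : ℤ → Prop) [DecidablePred Q] (n : ℕ) : ∀ p : ℤ, (TT Q p n).Finite := by
  induction n using Nat.strong_induction_on with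
  | _ n ih =>
    intro p
    rcases Nat.eq_zero_or_pos n with h | h
    · subst h
      exact (Set.finite_singleton _).subset (TT_zero Q p)
    · refine Set.Finite.subset ?_ (TT_sub Q p h)
      refine (AA Q p n).finite_toSet.biUnion fun a ha => ?_
      refine (ih _ ?_ a).image _
      have h1 : a ≠ 0 := by
        unfold AA at ha
        rw [Finset.mem_coe, Finset.mem_filter] at ha
        exact ha.2.1.1
      have := cost_pos (p := p) h1
      omega

theorem TT_ncard_le (Q : ℤ → Prop) [DecidablePred Q] (p : ℤ) {n : ℕ} (hn : 1 ≤ n) :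
    (TT Q p n).ncard ≤ ∑ a ∈ AA Q p n, (TT Q a (n - cost p a)).ncard := by
  classical
  set G : ℤ → Finset (List ℤ) := fun a =>
    ((TT_finite Q (n - cost p a) a).toFinset).image (List.cons a) with hG
  have h1 : TT Q p n ⊆ (((AA Q p n).biUnion G : Finset (List ℤ)) : Set (List ℤ)) := by
    intro l hl
    have h2 := TT_sub Q p hn hl
    simp only [Set.mem_iUnion] at h2
    obtain ⟨a, ha, l', hl', rfl⟩ := h2
    rw [Finset.mem_coe, Finset.mem_biUnion]
    refine ⟨a, ha, ?_⟩
    rw [hG]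
    simp only [Finset.mem_image]
    exact ⟨l', (Set.Finite.mem_toFinset _).2 hl', rfl⟩
  calc (TT Q p n).ncard ≤ (((AA Q p n).biUnion G : Finset (List ℤ)) : Set (List ℤ)).ncard :=
        Set.ncard_le_ncard h1 (Finset.finite_toSet _)
    _ = ((AA Q p n).biUnion G).card := Set.ncard_coe_finset _
    _ ≤ ∑ a ∈ AA Q p n, (G a).card := Finset.card_biUnion_le
    _ ≤ ∑ a ∈ AA Q p n, (TT Q a (n - cost p a)).ncard := by
        refine Finset.sum_le_sum fun a _ => ?_
        rw [hG]
        refine Finset.card_image_le.trans (le_of_eq ?_)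
        rw [Set.ncard_eq_toFinset_card _ (TT_finite Q (n - cost p a) a)]

theorem geo {N : ℕ} : ∑ j ∈ Finset.range N, ((25 : ℝ) / 81) ^ j ≤ 81 / 56 := by
  rw [geom_sum_eq (by norm_num)]
  have : (0 : ℝ) ≤ (25 / 81) ^ N := by positivity
  rw [div_le_iff_of_neg (by norm_num)]
  linarith

theorem sum_one (p : ℤ) (n : ℕ) :
    ∑ a ∈ AA (fun x => |x| ≠ 2) p n, ((5 : ℝ) / 9) ^ cost p a ≤ 1 := by
  set f : ℤ → ℝ := fun a => ((5 : ℝ) / 9) ^ cost p a with hf
  set K : Finset ℕ := (Finset.Icc 1 n).filter fun k => k ≠ 2 with hK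
  have hsub : AA (fun x => |x| ≠ 2) p n ⊆
      K.image (fun k : ℕ => (k : ℤ)) ∪ K.image (fun k : ℕ => -(k : ℤ)) := by
    intro a ha
    unfold AA at ha
    rw [Finset.mem_filter, Finset.mem_Icc] at ha
    obtain ⟨h1, ⟨h2, h3⟩, -⟩ := ha
    have h4 : a.natAbs ∈ K := by
      rw [hK, Finset.mem_filter, Finset.mem_Icc]
      refine ⟨by omega, fun h5 => h3 ?_⟩
      rw [Int.abs_eq_natAbs, h5]
      rfl
    rw [Finset.mem_union, Finset.mem_image, Finset.mem_image]
    rcases le_total 0 a with h5 | h5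
    · exact Or.inl ⟨a.natAbs, h4, by omega⟩
    · exact Or.inr ⟨a.natAbs, h4, by omega⟩
  have hpair : ∀ k : ℕ, 1 ≤ k → f k + f (-k) ≤ 14 / 5 * (25 / 81 : ℝ) ^ k := by
    intro k hk
    have e1 : ((5 : ℝ) / 9) ^ (2 * k) = (25 / 81) ^ k := by
      rw [pow_mul]
      norm_num
    have e2 : ((5 : ℝ) / 9) ^ (2 * k - 1) = 9 / 5 * (25 / 81) ^ k := by
      have h1 : ((5 : ℝ) / 9) ^ (2 * k) = ((5 : ℝ) / 9) ^ (2 * k - 1) * (5 / 9) := by
        rw [← pow_succ]
        congr 1
        omega
      rw [e1] at h1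
      rw [h1]
      ring
    have hpos : (0 : ℝ) ≤ (25 / 81) ^ k := by positivity
    have hk0 : (0 : ℤ) < k := by exact_mod_cast hk
    simp only [hf, cost, Int.natAbs_natCast, Int.natAbs_neg]
    rcases lt_trichotomy p 0 with h | h | h
    · have c1 : ¬ 0 < p * (k : ℤ) := by nlinarith
      have c2 : 0 < p * -(k : ℤ) := by nlinarith
      rw [if_neg c1, if_pos c2, Nat.sub_zero, e1, e2]
      linarith
    · have c1 : ¬ 0 < p * (k : ℤ) := by rw [h]; simp
      have c2 : ¬ 0 < p * -(k : ℤ) := by rw [h]; simp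
      rw [if_neg c1, if_neg c2, Nat.sub_zero, e1]
      linarith
    · have c1 : 0 < p * (k : ℤ) := by nlinarith
      have c2 : ¬ 0 < p * -(k : ℤ) := by nlinarith
      rw [if_pos c1, if_neg c2, Nat.sub_zero, e1, e2]
      linarith
  have hf0 : ∀ a, 0 ≤ f a := fun a => by simp only [hf]; positivity
  have hgeo : ∑ k ∈ K, (25 / 81 : ℝ) ^ k ≤ 5 / 14 := by
    have hsub2 : K ⊆ {1} ∪ (Finset.range n).image (fun j => j + 3) := by
      intro k hk
      rw [hK, Finset.mem_filter, Finset.mem_Icc] at hk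
      rw [Finset.mem_union, Finset.mem_singleton, Finset.mem_image]
      by_cases h1 : k = 1
      · exact Or.inl h1
      · exact Or.inr ⟨k - 3, by rw [Finset.mem_range]; omega, by omega⟩
    calc ∑ k ∈ K, (25 / 81 : ℝ) ^ k
        ≤ ∑ k ∈ {1} ∪ (Finset.range n).image (fun j => j + 3), (25 / 81 : ℝ) ^ k :=
          Finset.sum_le_sum_of_subset_of_nonneg hsub2 fun _ _ _ => by positivity
      _ ≤ ∑ k ∈ {1}, (25 / 81 : ℝ) ^ k +
            ∑ k ∈ (Finset.range n).image (fun j => j + 3), (25 / 81 : ℝ) ^ k := by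
          rw [← Finset.sum_union_inter]
          exact le_add_of_nonneg_right (Finset.sum_nonneg fun _ _ => by positivity)
      _ = 25 / 81 + (25 / 81) ^ 3 * ∑ j ∈ Finset.range n, (25 / 81 : ℝ) ^ j := by
          rw [Finset.sum_singleton, Finset.sum_image fun x _ y _ h => by simpa using h,
            Finset.mul_sum, pow_one]
          congr 1
          refine Finset.sum_congr rfl fun j _ => by ring
      _ ≤ 25 / 81 + (25 / 81) ^ 3 * (81 / 56) := by
          have := mul_le_mul_of_nonneg_left (geo (N := n)) (by positivity : (0 : ℝ) ≤ (25 / 81) ^ 3)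
          linarith
      _ ≤ 5 / 14 := by norm_num
  calc ∑ a ∈ AA (fun x => |x| ≠ 2) p n, f a
      ≤ ∑ a ∈ K.image (fun k : ℕ => (k : ℤ)) ∪ K.image (fun k : ℕ => -(k : ℤ)), f a :=
        Finset.sum_le_sum_of_subset_of_nonneg hsub fun _ _ _ => hf0 _
    _ ≤ ∑ a ∈ K.image (fun k : ℕ => (k : ℤ)), f a + ∑ a ∈ K.image (fun k : ℕ => -(k : ℤ)), f a := by
        rw [← Finset.sum_union_inter]
        exact le_add_of_nonneg_right (Finset.sum_nonneg fun _ _ => hf0 _)
    _ = ∑ k ∈ K, (f k + f (-k)) := by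
        rw [Finset.sum_image fun x _ y _ h => by simpa using h,
          Finset.sum_image fun x _ y _ h => by simpa using h, Finset.sum_add_distrib]
    _ ≤ ∑ k ∈ K, 14 / 5 * (25 / 81 : ℝ) ^ k := by
        refine Finset.sum_le_sum fun k hk => hpair k ?_
        rw [hK, Finset.mem_filter, Finset.mem_Icc] at hk
        exact hk.1.1
    _ = 14 / 5 * ∑ k ∈ K, (25 / 81 : ℝ) ^ k := by rw [Finset.mul_sum]
    _ ≤ 1 := by linarith

theorem up (n : ℕ) : ∀ p : ℤ, ((TT (fun x => |x| ≠ 2) p n).ncard : ℝ) ≤ (9 / 5) ^ n := by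
  induction n using Nat.strong_induction_on with
  | _ n ih =>
    intro p
    rcases Nat.eq_zero_or_pos n with h | h
    · subst h
      have h1 := Set.ncard_le_ncard (TT_zero (fun x => |x| ≠ 2) p) (Set.finite_singleton _)
      rw [Set.ncard_singleton] at h1
      rw [pow_zero]
      exact_mod_cast h1
    · have h1 : (TT (fun x => |x| ≠ 2) p n).ncard ≤
          ∑ a ∈ AA (fun x => |x| ≠ 2) p n, (TT (fun x => |x| ≠ 2) a (n - cost p a)).ncard :=
        TT_ncard_le _ p h
      calc ((TT (fun x => |x| ≠ 2) p n).ncard : ℝ)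
          ≤ ∑ a ∈ AA (fun x => |x| ≠ 2) p n,
              ((TT (fun x => |x| ≠ 2) a (n - cost p a)).ncard : ℝ) := by exact_mod_cast h1
        _ ≤ ∑ a ∈ AA (fun x => |x| ≠ 2) p n, ((9 : ℝ) / 5) ^ (n - cost p a) := by
            refine Finset.sum_le_sum fun a ha => ih _ ?_ a
            have h2 : a ≠ 0 := by
              unfold AA at ha
              rw [Finset.mem_filter] at ha
              exact ha.2.1.1
            have := cost_pos (p := p) h2
            omega
        _ = ∑ a ∈ AA (fun x => |x| ≠ 2) p n, ((9 : ℝ) / 5) ^ n * (5 / 9) ^ cost p a := by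
            refine Finset.sum_congr rfl fun a ha => ?_
            have h2 : cost p a ≤ n := by
              unfold AA at ha
              rw [Finset.mem_filter] at ha
              exact ha.2.2
            rw [show ((5 : ℝ) / 9) = (9 / 5)⁻¹ by norm_num, inv_pow, pow_sub₀ _ (by norm_num) h2]
        _ = (9 / 5) ^ n * ∑ a ∈ AA (fun x => |x| ≠ 2) p n, ((5 : ℝ) / 9) ^ cost p a := by
            rw [Finset.mul_sum]
        _ ≤ (9 / 5) ^ n * 1 := mul_le_mul_of_nonneg_left (sum_one p n) (by positivity)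
        _ = (9 / 5) ^ n := mul_one _

end Pool.Agent.CR42
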